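import Pool.Agent.MP_c69980_ag.J1E.C
import Pool.Agent.MP_c69980_ag.I4.Xi
import Pool.Agent.MP_c69980_ag.I4.Wan

/-!
A complex torus of dimension one on a curve gives a generic point of the Weierstrass cubic.
-/

set_option autoImplicit false

noncomputable section

namespace Pool.Agent.MP_c69980_ag.J1E

open MvPolynomial Metric Filter Topology Set
open H60 H4 E1

variable {N d : ℕ} {θ : ℂ → V N} {L : PeriodPair} {K : Type} [Field K] [Algebra ℂ K]
  {ξ : Fin N → K} {G : PR N}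

lemma alg_of {x a : K} (hx : Transcendental ℂ x) (h : ¬ AlgebraicIndependent ℂ ![a, x]) :
    IsAlgebraic (Algebra.adjoin ℂ (range ![x])) a := by
  by_contra q
  have h1 : AlgebraicIndependent ℂ ![x] := algebraicIndependent_iff_transcendental.2 hx
  refine h ((algebraicIndependent_equiv' (finSuccEquiv 1) ?_).2
    ((h1.option_iff_transcendental a).2 q))
  funext i
  fin_cases i <;> rfl

lemma val {b c : Fin N} {y : V N} (hy : On ξ y) (y0 : y b ≠ 0) (p : Polynomial ℂ) :
    ξ c / ξ b ∈ rg hy ∧ vl ξ (Polynomial.aeval (ξ c / ξ b) p) y = p.eval (y c / y b) := by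
  have x1 : ξ c / ξ b = aeval ξ (X c : PR N) / aeval ξ (X b : PR N) := by simp
  have x2 : ξ c / ξ b ∈ rg hy :=
    ⟨X c, X b, 1, isHomogeneous_X _ _, isHomogeneous_X _ _, by simpa using y0, x1⟩
  have v2 : chi hy (Polynomial.aeval (⟨_, x2⟩ : rg hy) p) = p.eval (chi hy ⟨_, x2⟩) := by
    rw [← Polynomial.aeval_algHom_apply, Polynomial.coe_aeval_eq_eval]
  have v3 : chi hy ⟨_, x2⟩ = y c / y b := by
    show vl ξ (ξ c / ξ b) y = _
    rw [x1, vl_eq hy (isHomogeneous_X _ _) (isHomogeneous_X _ _) (by simpa using y0), eval_X,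
      eval_X]
  refine ⟨x2, ?_⟩
  rw [← v3, ← v2]
  exact congrArg (fun u => vl ξ u y) (Polynomial.aeval_algHom_apply (rg hy).val ⟨_, x2⟩ p)

/-- On a curve, a form that does not vanish identically bounds the values of a coordinate. -/
lemma fz {b c : Fin N} (hb : ξ b ≠ 0) (ht : Transcendental ℂ (ξ c / ξ b))
    (hd : ∀ i, ¬ AlgebraicIndependent ℂ ![ξ i / ξ b, ξ c / ξ b]) (hG : G.IsHomogeneous d)
    (h0 : aeval ξ G ≠ 0) : ∃ p : Polynomial ℂ, p ≠ 0 ∧
      ∀ y, On ξ y → y b ≠ 0 → eval y G = 0 → p.eval (y c / y b) = 0 := by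
  set A := Algebra.adjoin ℂ (range ![ξ c / ξ b]) with hA
  have e : aeval (fun i => ξ i / ξ b) G = aeval ξ G / aeval ξ (X b ^ d : PR N) := by
    rw [show (fun i => ξ i / ξ b) = (ξ b)⁻¹ • ξ from funext fun i => by
      rw [Pi.smul_apply, smul_eq_mul, div_eq_inv_mul], aeval_smul_hom hG, map_pow, aeval_X,
      inv_pow, div_eq_inv_mul]
  have a1 : ∀ P : PR N, IsAlgebraic A (aeval (fun i => ξ i / ξ b) P) := fun P => by
    induction P using MvPolynomial.induction_on with
    | C a =>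
      rw [aeval_C]
      exact isAlgebraic_algebraMap (R := A) (algebraMap ℂ A a)
    | add p q hp hq =>
      rw [map_add]
      exact hp.add hq
    | mul_X p i hp =>
      rw [map_mul, aeval_X]
      exact hp.mul (alg_of ht (hd i))
  obtain ⟨t, t1, r, r0, r1⟩ := (a1 G).exists_nonzero_eq_adjoin_mul
    (mem_nonZeroDivisors_of_ne_zero (by
      rw [e, map_pow, aeval_X]
      exact div_ne_zero h0 (pow_ne_zero _ hb)))
  have r2 : (r : K) ∈ Algebra.adjoin ℂ {ξ c / ξ b} := by
    have := r.2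
    simpa [hA] using this
  rw [Algebra.adjoin_singleton_eq_range_aeval] at r2
  obtain ⟨p, hp⟩ := r2
  have hp' : Polynomial.aeval (ξ c / ξ b) p = (r : K) := hp
  refine ⟨p, fun q => r0 (Subtype.ext (by rw [← hp', q, map_zero]; rfl)), fun y hy y0 yG => ?_⟩
  obtain ⟨x2, v2⟩ := val (c := c) hy y0 p
  have hX : (X b ^ d : PR N).IsHomogeneous d := by simpa using (isHomogeneous_X ℂ b).pow d
  have y1 : eval y (X b ^ d : PR N) ≠ 0 := by
    rw [map_pow, eval_X]
    exact pow_ne_zero _ y0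
  have g1 : aeval (fun i => ξ i / ξ b) G ∈ rg hy := ⟨G, _, d, hG, hX, y1, e⟩
  have A1 : A ≤ rg hy := Algebra.adjoin_le (by
    rintro _ ⟨i, rfl⟩
    simpa using x2)
  have t2 : t ∈ rg hy := by
    clear r1
    induction t1 using Algebra.adjoin_induction with
    | mem x hx => exact hx ▸ g1
    | algebraMap s => exact A1 s.2
    | add u v _ _ hu hv => exact add_mem hu hv
    | mul u v _ _ hu hv => exact mul_mem hu hv
  have v1 := (vl_mul hy g1 t2).2
  rw [r1, e, vl_eq hy hG hX y1, yG, zero_div, zero_mul] at v1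
  rw [← v2, hp']
  exact v1

/-- Some coordinate of the curve takes infinitely many values. -/
lemma Emb.coord (H : Emb θ L) : ∃ b c : Fin N, ∀ p : Polynomial ℂ, p ≠ 0 →
    ∃ s, θ s b ≠ 0 ∧ p.eval (θ s c / θ s b) ≠ 0 := by
  obtain ⟨b, hb⟩ := Function.ne_iff.1 (H.ne 0)
  have hb' : θ 0 b ≠ 0 := hb
  have di : ∀ i, Differentiable ℂ fun s => θ s i := differentiable_pi.1 H.hol
  obtain ⟨c, hc⟩ : ∃ c, ∃ s, θ s c * θ 0 b - θ 0 c * θ s b ≠ 0 := by
    by_contra q
    have e : θ (L.ω₁ / 2) = (θ (L.ω₁ / 2) b / θ 0 b) • θ 0 := funext fun i => by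
      rw [Pi.smul_apply, smul_eq_mul, div_mul_eq_mul_div, eq_div_iff hb']
      by_contra c
      exact q ⟨i, L.ω₁ / 2, fun r => c (by linear_combination r)⟩
    exact L.ω₁_div_two_notMem_lattice (by simpa using (H.per _ _).1 ⟨_, H.t0 e, e⟩)
  refine ⟨b, c, fun p hp => ?_⟩
  have e1 : ∀ᶠ x in 𝓝[≠] (0 : ℂ), θ x b ≠ 0 :=
    mem_nhdsWithin_of_mem_nhds ((di b).continuous.continuousAt.eventually_ne hb')
  have e2 := iso (((di c).mul_const (θ 0 b)).sub ((di b).const_mul (θ 0 c))) hc 0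
  have tq : Tendsto (fun x => θ x c / θ x b) (𝓝[≠] 0) (𝓝[≠] (θ 0 c / θ 0 b)) :=
    tendsto_nhdsWithin_iff.2 ⟨((di c).continuous.continuousAt.div (di b).continuous.continuousAt
      hb').tendsto.mono_left nhdsWithin_le_nhds, (e1.and e2).mono fun x hx q => hx.2 (by
        have := (div_eq_div_iff hx.1 hb').1 q
        exact sub_eq_zero.2 this)⟩
  have e3 := iso p.differentiable (by
    by_contra q
    exact hp (Polynomial.funext fun x => by
      rw [Polynomial.eval_zero]
      exact by_contra fun r => q ⟨x, r⟩)) (θ 0 c / θ 0 b)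
  exact (e1.and (tq.eventually e3)).exists

/-- A form that vanishes on the torus vanishes on the curve. -/
lemma Emb.ker (H : Emb θ L) (ho : ∀ s, On ξ (θ s))
    (hd : ∀ b c c', ¬ AlgebraicIndependent ℂ ![ξ c / ξ b, ξ c' / ξ b]) (hG : G.IsHomogeneous d)
    (h : ∀ s, ev θ G s = 0) : aeval ξ G = 0 := by
  obtain ⟨b, c, hc⟩ := H.coord
  have x0 : ∀ s, θ s b ≠ 0 → ξ b ≠ 0 := fun s hs q =>
    hs (by simpa using ho s (X b) 1 (isHomogeneous_X _ _) (by simpa using q))
  obtain ⟨s₀, s0, -⟩ := hc 1 one_ne_zero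
  have ht : Transcendental ℂ (ξ c / ξ b) := fun ⟨p, p0, p1⟩ => by
    obtain ⟨s, s1, s2⟩ := hc p p0
    rw [← (val (ho s) s1 p).2, p1] at s2
    exact s2 (by simpa using (vl_const (ho s) 0).2)
  by_contra q
  obtain ⟨p, p0, p1⟩ := fz (x0 s₀ s0) ht (fun i => hd b i c) hG q
  obtain ⟨s, s1, s2⟩ := hc p p0
  exact s2 (p1 _ (ho s) s1 (h s))

theorem Emb.ell (H : Emb θ L) (ho : ∀ s, On ξ (θ s))
    (hd : ∀ b c c', ¬ AlgebraicIndependent ℂ ![ξ c / ξ b, ξ c' / ξ b]) :
    ∃ η : Fin 3 → K, I4.NC η ∧ aeval η (I4.cub L) = 0 := by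
  obtain ⟨A, B, d, hA, hB, A0, e⟩ := H.rat (φ := L.weierstrassP)
    (fun s w hw => L.weierstrassP_add_coe s ⟨w, hw⟩) (fun s₀ h => ⟨fun x => (x - s₀) *
      ((x - s₀) ^ 2 * L.weierstrassPExcept s₀ x + 1 - (x - s₀) ^ 2 * (s₀ ^ 2)⁻¹), by
        have := L.analyticAt_weierstrassPExcept s₀
        fun_prop, eventually_mem_nhdsWithin.mono fun x hx => by
        have := L.ite_eq_one_sub_sq_mul_weierstrassP s₀ h x
        rw [if_neg (show x ≠ s₀ from hx), div_eq_mul_inv] at this
        simp only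
        rw [← this]
        ring⟩) L.analyticOnNhd_weierstrassP
  obtain ⟨A', B', d', hA', hB', A0', e'⟩ := H.rat (φ := L.derivWeierstrassP)
    (fun s w hw => L.derivWeierstrassP_add_coe s ⟨w, hw⟩) (fun s₀ h => ⟨fun x =>
      (x - s₀) ^ 3 * L.derivWeierstrassPExcept s₀ x - 2, by
        have := L.analyticAt_derivWeierstrassPExcept s₀
        fun_prop, eventually_mem_nhdsWithin.mono fun x hx => by
        have := L.derivWeierstrassPExcept_sub ⟨s₀, h⟩ x
        have h3 : (x - s₀) ^ 3 ≠ 0 := pow_ne_zero _ (sub_ne_zero.2 hx)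
        simp only at this ⊢
        rw [← this, mul_sub, mul_div_cancel₀ _ h3]⟩) L.analyticOnNhd_derivWeierstrassP
  let F : Fin 3 → PR N := ![B * A', A * B', A * A']
  have hF : ∀ i, (F i).IsHomogeneous (d + d') := fun i => by
    fin_cases i
    exacts [hB.mul hA', hA.mul hB', hA.mul hA']
  have eF : ∀ᶠ x in 𝓝[≠] (0 : ℂ), (fun i => eval (θ x) (F i)) = (ev θ A x * ev θ A' x) •
      ![L.weierstrassP x, L.derivWeierstrassP x, 1] := (e.and e').mono fun x hx => by
    have h1 := hx.1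
    have h2 := hx.2
    funext i
    fin_cases i <;> simp [F, ev] at h1 h2 ⊢
    · linear_combination (-eval (θ x) A') * h1
    · linear_combination (-eval (θ x) A) * h2
  have nz := (iso (H.evd A) A0 0).and (iso (H.evd A') A0' 0)
  refine ⟨fun i => aeval ξ (F i), ?_, ?_⟩
  · rintro ⟨c, l, hc⟩
    have c2 : c 2 ≠ 0 := fun q => by
      obtain ⟨x, x1, x2⟩ := nz.exists
      have := ho x _ _ (hF 2) (by simpa [q] using hc 2)
      exact mul_ne_zero x1 x2 (by simpa [F, ev] using this)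
    have z : aeval ξ (C (c 2) * F 0 - C (c 0) * F 2) = 0 := by
      rw [map_sub, map_mul, map_mul, aeval_C, aeval_C, show aeval ξ (F 0) = _ from hc 0,
        show aeval ξ (F 2) = _ from hc 2]
      ring
    obtain ⟨x, ⟨x1, x2⟩, -, x3⟩ := ((nz.and eF).and ((lat L).2.1
      (Polynomial.C (c 2) * Polynomial.X - Polynomial.C (c 0)) 0 fun q => c2 (by
        simpa using congrArg (fun p => Polynomial.coeff p 1) q))).exists
    have := ho x _ _ (((hF 0).C_mul _).sub ((hF 2).C_mul _)) z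
    rw [map_sub, map_mul, map_mul, eval_C, eval_C, congrFun x2 0, congrFun x2 2] at this
    refine x3 (mul_left_cancel₀ (mul_ne_zero x1.1 x1.2) ?_)
    simp only [Pi.smul_apply, smul_eq_mul, Matrix.cons_val, Polynomial.eval_sub,
      Polynomial.eval_mul, Polynomial.eval_C, Polynomial.eval_X] at this ⊢
    linear_combination this
  · have hc : (I4.cub L).IsHomogeneous 3 := (I4.sur L).1
    rw [← I4.XiX.ae_ae]
    refine H.ker ho hd (hc.aeval F hF) (zero_of (s₀ := 0) (H.evd _) (Eventually.frequently ?_))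
    filter_upwards [eF, (lat L).2.1 1 0 one_ne_zero] with x x1 x2
    rw [ev, I4.XiX.ev_ae, x1, eval_smul_hom hc]
    have := L.derivWeierstrassP_sq x x2.1
    simp [I4.cub, this]

end Pool.Agent.MP_c69980_ag.J1E
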