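import Pool.Agent.MP_c69980_ag.E1.Base
import Pool.Agent.MP_c69980_ag.E1.GainA

/-!
Entire functions: zeros, removable points, division.
-/

set_option autoImplicit false

noncomputable section

namespace Pool.Agent.MP_c69980_ag.J1E

open MvPolynomial Metric Filter Topology Set
open H60 H4 E1

variable {f g : ℂ → ℂ}

lemma zero_of (hf : Differentiable ℂ f) {s₀ : ℂ} (h : ∃ᶠ x in 𝓝[≠] s₀, f x = 0) (s : ℂ) :
    f s = 0 :=
  AnalyticOnNhd.eqOn_zero_of_preconnected_of_frequently_eq_zero (U := univ)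
    (fun x _ => hf.analyticAt x) isPreconnected_univ (mem_univ s₀) h (mem_univ s)

lemma iso (hf : Differentiable ℂ f) (h : ∃ s, f s ≠ 0) (s₀ : ℂ) : ∀ᶠ x in 𝓝[≠] s₀, f x ≠ 0 := by
  obtain ⟨s, hs⟩ := h
  by_contra q
  exact hs (zero_of hf (not_eventually.1 q |>.mono fun x hx => not_not.1 hx) s)

lemma finz (hf : Differentiable ℂ f) (h : ∃ s, f s ≠ 0) (R : ℝ) :
    {s | ‖s‖ ≤ R ∧ f s = 0}.Finite := by
  by_contra q
  obtain ⟨x, -, hx⟩ := Set.Infinite.exists_accPt_of_subset_isCompact q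
    (isCompact_closedBall (0 : ℂ) R) fun s hs => mem_closedBall_zero_iff.2 hs.1
  obtain ⟨y, h1, h2⟩ := ((accPt_iff_frequently_nhdsNE.1 hx).and_eventually (iso hf h x)).exists
  exact h2 h1.2

lemma cntz (hf : Differentiable ℂ f) (h : ∃ s, f s ≠ 0) : {s | f s = 0}.Countable := by
  refine (countable_iUnion fun n : ℕ => (finz hf h n).countable).mono fun s hs => ?_
  obtain ⟨n, hn⟩ := exists_nat_ge ‖s‖
  exact mem_iUnion.2 ⟨n, hn, hs⟩

lemma eq_at {a b : ℂ → ℂ} {s : ℂ} (ha : ContinuousAt a s) (hb : ContinuousAt b s)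
    (h : a =ᶠ[𝓝[≠] s] b) : a s = b s :=
  tendsto_nhds_unique ((ha.tendsto.mono_left nhdsWithin_le_nhds).congr' h)
    (hb.tendsto.mono_left nhdsWithin_le_nhds)

/-- Removable points. -/
lemma rem {h : ℂ → ℂ} (H : ∀ s₀, ∃ a : ℂ → ℂ, AnalyticAt ℂ a s₀ ∧ h =ᶠ[𝓝[≠] s₀] a) :
    ∃ g : ℂ → ℂ, Differentiable ℂ g ∧ ∀ s₀, g =ᶠ[𝓝[≠] s₀] h := by
  choose a a1 a2 using H
  have key : ∀ s₀, ∀ᶠ x in 𝓝[≠] s₀, a x x = a s₀ x := fun s₀ => by
    have e := eventually_eventually_nhdsWithin.2 (a2 s₀)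
    filter_upwards [e, self_mem_nhdsWithin,
      mem_nhdsWithin_of_mem_nhds (a1 s₀).eventually_analyticAt] with x h1 h2 h3
    have h5 : h =ᶠ[𝓝[≠] x] a s₀ := by
      rw [isOpen_compl_singleton.nhdsWithin_eq h2] at h1
      exact h1.filter_mono nhdsWithin_le_nhds
    exact eq_at (a1 x).continuousAt h3.continuousAt ((a2 x).symm.trans h5)
  refine ⟨fun x => a x x, fun s₀ => ?_, fun s₀ => ?_⟩
  · refine (a1 s₀).differentiableAt.congr_of_eventuallyEq ?_
    rw [← nhdsNE_sup_pure]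
    exact eventually_sup.2 ⟨key s₀, eventually_pure.2 rfl⟩
  · exact EventuallyEq.trans (key s₀) (a2 s₀).symm

lemma an_dslope {s₀ : ℂ} (hf : AnalyticAt ℂ f s₀) : AnalyticAt ℂ (dslope f s₀) s₀ := by
  obtain ⟨p, hp⟩ := hf
  exact ⟨_, hp.has_fpower_series_dslope_fslope⟩

lemma eq_dslope {s₀ : ℂ} (h : f s₀ = 0) (x : ℂ) : f x = (x - s₀) * dslope f s₀ x := by
  have := sub_smul_dslope f s₀ x
  rw [h, sub_zero, smul_eq_mul] at this
  exact this.symm

/-- Division by a function with simple zeros. -/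
lemma dvd (hf : Differentiable ℂ f) (hg : Differentiable ℂ g)
    (h1 : ∀ s, f s = 0 → deriv f s ≠ 0) (h2 : ∀ s, f s = 0 → g s = 0) (h0 : ∃ s, f s ≠ 0) :
    ∃ q : ℂ → ℂ, Differentiable ℂ q ∧ ∀ s, g s = f s * q s := by
  obtain ⟨q, q1, q2⟩ := rem (h := fun s => g s / f s) fun s₀ => by
    by_cases c : f s₀ = 0
    · refine ⟨fun x => dslope g s₀ x / dslope f s₀ x, (an_dslope (hg.analyticAt s₀)).div
        (an_dslope (hf.analyticAt s₀)) (by rw [dslope_same]; exact h1 s₀ c), ?_⟩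
      filter_upwards [self_mem_nhdsWithin] with x hx
      rw [eq_dslope c x, eq_dslope (h2 s₀ c) x, mul_div_mul_left _ _ (sub_ne_zero.2 hx)]
    · exact ⟨_, (hg.analyticAt s₀).div (hf.analyticAt s₀) c, EventuallyEq.rfl⟩
  refine ⟨q, q1, fun s => eq_at (b := fun x => f x * q x) hg.continuous.continuousAt
    (hf.mul q1).continuous.continuousAt ?_⟩
  filter_upwards [q2 s, iso hf h0 s] with x h3 h4
  rw [h3, mul_div_cancel₀ _ h4]

/-- A linear form that vanishes at no point of a countable set. -/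
lemma avoid {N : ℕ} {S : Set (V N)} (hS : S.Countable) (h0 : ∀ y ∈ S, y ≠ 0) :
    ∃ l : PR N, l.IsHomogeneous 1 ∧ ∀ y ∈ S, eval y l ≠ 0 := by
  have hp : ∀ y ∈ S, {t : ℂ | ∑ i : Fin N, t ^ (i : ℕ) * y i = 0}.Countable := fun y hy => by
    set P : Polynomial ℂ := ∑ i : Fin N, Polynomial.monomial i (y i) with hP
    have P0 : P ≠ 0 := fun q => h0 y hy (funext fun j => by
      have := congrArg (fun p => Polynomial.coeff p j) q
      simpa [hP, Polynomial.finsetSum_coeff, Polynomial.coeff_monomial, Fin.val_inj] using this)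
    refine (P.rootSet_finite ℂ).countable.mono fun t ht => ?_
    rw [Polynomial.mem_rootSet]
    refine ⟨P0, ?_⟩
    rw [← show _ = (0 : ℂ) from ht, hP, map_sum]
    exact Finset.sum_congr rfl fun i _ => by simp [mul_comm]
  obtain ⟨t, ht⟩ := ((hS.biUnion hp).dense_compl ℂ).nonempty
  refine ⟨∑ i : Fin N, C (t ^ (i : ℕ)) * X i,
    IsHomogeneous.sum _ _ _ fun i _ => isHomogeneous_C_mul_X _ _, fun y hy q => ht ?_⟩
  exact mem_iUnion₂.2 ⟨y, hy, by simpa using q⟩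

/-- A linear form that separates two lines. -/
lemma sep {N : ℕ} {y w : V N} (hy : y ≠ 0) (hw : w ≠ 0) (h : ¬ Pp y w) :
    ∃ l : PR N, l.IsHomogeneous 1 ∧ eval y l ≠ 0 ∧ eval w l = 0 := by
  obtain ⟨j, hj⟩ := Function.ne_iff.1 hw
  have hj' : w j ≠ 0 := hj
  by_contra q
  have e : y = (y j / w j) • w := funext fun i => by
    by_contra c
    refine q ⟨C (w j) * X i - C (w i) * X j,
      (isHomogeneous_C_mul_X _ _).sub (isHomogeneous_C_mul_X _ _), fun r => c ?_, ?_⟩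
    · simp only [map_sub, map_mul, eval_C, eval_X] at r
      rw [Pi.smul_apply, smul_eq_mul, div_mul_eq_mul_div, eq_div_iff hj']
      linear_combination r
    · simp only [map_sub, map_mul, eval_C, eval_X]
      ring
  exact h ⟨_, fun r => hy (by rw [e, r, zero_smul]), e⟩

end Pool.Agent.MP_c69980_ag.J1E
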