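import Pool.Agent.MP_c69980_ag.J1E.A

/-!
A complex torus of dimension one in projective space: its ring of sections.
-/

set_option autoImplicit false

noncomputable section

namespace Pool.Agent.MP_c69980_ag.J1E

open MvPolynomial Metric Filter Topology Set
open H60 H4 E1

variable {N d e : ℕ} {θ : ℂ → V N} {L : PeriodPair} {g g' : ℂ → ℂ} {l F : PR N}

/-- An injective holomorphic map from `ℂ / L` to projective space. -/
structure Emb (θ : ℂ → V N) (L : PeriodPair) : Prop where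
  hol : Differentiable ℂ θ
  ne : ∀ s, θ s ≠ 0
  per : ∀ s s', Pp (θ s) (θ s') ↔ s - s' ∈ L.lattice

/-- A form along the curve. -/
def ev (θ : ℂ → V N) (F : PR N) : ℂ → ℂ := fun s => eval (θ s) F

/-- Sections of degree `d`. -/
def T (θ : ℂ → V N) (d : ℕ) : Submodule ℂ (ℂ → ℂ) where
  carrier := {g | Differentiable ℂ g ∧ ∀ s s' (t : ℂ), θ s = t • θ s' → g s = t ^ d * g s'}
  add_mem' := fun ha hb => ⟨ha.1.add hb.1, fun s s' t h => by
    rw [Pi.add_apply, Pi.add_apply, ha.2 s s' t h, hb.2 s s' t h, mul_add]⟩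
  zero_mem' := ⟨differentiable_const 0, fun s s' t _ => by simp⟩
  smul_mem' := fun c x hx => ⟨hx.1.const_smul c, fun s s' t h => by
    rw [Pi.smul_apply, Pi.smul_apply, hx.2 s s' t h, smul_eq_mul, smul_eq_mul, mul_left_comm]⟩

lemma Emb.evd (H : Emb θ L) (F : PR N) : Differentiable ℂ (ev θ F) := fun s =>
  (eval_an (H.hol.analyticAt s) F).differentiableAt

lemma Emb.ev_mem (H : Emb θ L) (hF : F.IsHomogeneous d) : ev θ F ∈ T θ d :=
  ⟨H.evd F, fun s s' t h => by rw [ev, ev, h, eval_smul_hom hF]⟩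

lemma T_mul (h : g ∈ T θ d) (h' : g' ∈ T θ e) : g * g' ∈ T θ (d + e) :=
  ⟨h.1.mul h'.1, fun s s' t q => by
    rw [Pi.mul_apply, Pi.mul_apply, h.2 s s' t q, h'.2 s s' t q, pow_add]
    ring⟩

lemma Emb.t0 (H : Emb θ L) {s s' t : ℂ} (h : θ s = t • θ s') : t ≠ 0 := fun q =>
  H.ne s (by rw [h, q, zero_smul])

lemma Emb.mem_of (H : Emb θ L) (hg : Differentiable ℂ g) (h : ∀ w ∈ L.lattice, ∀ s₀,
    ∀ᶠ x in 𝓝[≠] s₀, ∀ t : ℂ, θ (x + w) = t • θ x → g (x + w) = t ^ d * g x) : g ∈ T θ d := by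
  refine ⟨hg, fun s s' t q => ?_⟩
  have hw := (H.per s s').1 ⟨t, H.t0 q, q⟩
  obtain ⟨i, hi⟩ := Function.ne_iff.1 (H.ne s')
  have hi' : θ s' i ≠ 0 := hi
  have ci : Continuous fun x => θ x i := (continuous_apply i).comp H.hol.continuous
  have cg := hg.continuous
  have := eq_at (s := s') (a := fun x => g (x + (s - s')) * θ x i ^ d)
    (b := fun x => g x * θ (x + (s - s')) i ^ d)
    ((cg.comp (continuous_add_const _)).mul (ci.pow d)).continuousAt
    (cg.mul ((ci.comp (continuous_add_const _)).pow d)).continuousAt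
    ((h _ hw s').mono fun x hx => by
      obtain ⟨c, -, hc⟩ := (H.per (x + (s - s')) x).2 (by simpa using hw)
      simp only
      rw [hx c hc, hc, Pi.smul_apply, smul_eq_mul, mul_pow]
      ring)
  simp only [add_sub_cancel] at this
  rw [q, Pi.smul_apply, smul_eq_mul, mul_pow] at this
  exact mul_right_cancel₀ (pow_ne_zero d hi') (by linear_combination this)

lemma Emb.const (H : Emb θ L) (h : g ∈ T θ 0) (s : ℂ) : g s = g 0 := by
  obtain ⟨R, -, hR⟩ := (lat L).1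
  refine h.1.apply_eq_apply_of_bounded (((isCompact_closedBall (0 : ℂ) R).image
    h.1.continuous).isBounded.subset ?_) s 0
  rintro _ ⟨x, rfl⟩
  obtain ⟨w, hw, h1⟩ := hR x
  obtain ⟨c, -, hc⟩ := (H.per (x - w) x).2 (by simpa using hw)
  exact ⟨x - w, mem_closedBall_zero_iff.2 h1, by simpa using h.2 _ _ c hc⟩

/-- A linear form with simple zeros on the curve, and representatives of the zeros. -/
structure Cut (θ : ℂ → V N) (l : PR N) (S : Finset ℂ) : Prop where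
  hom : l.IsHomogeneous 1
  ne : ∃ s, ev θ l s ≠ 0
  simple : ∀ s, ev θ l s = 0 → deriv (ev θ l) s ≠ 0
  inj : ∀ p ∈ S, ∀ q ∈ S, Pp (θ p) (θ q) → p = q
  all : ∀ s, ev θ l s = 0 → ∃ p ∈ S, Pp (θ s) (θ p)

lemma Emb.reps (H : Emb θ L) (hl : l.IsHomogeneous d) (h0 : ∃ s, ev θ l s ≠ 0) :
    ∃ S : Finset ℂ, (∀ p ∈ S, ∀ q ∈ S, Pp (θ p) (θ q) → p = q) ∧
      ∀ s, ev θ l s = 0 → ∃ p ∈ S, Pp (θ s) (θ p) := by
  classical
  obtain ⟨R, -, hR⟩ := (lat L).1
  let π := L.lattice.mkQ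
  have hπ : ∀ s s', π s = π s' ↔ Pp (θ s) (θ s') := fun s s' =>
    (Submodule.Quotient.eq _).trans (H.per s s').symm
  obtain ⟨σ, hσ⟩ := L.lattice.mkQ_surjective.hasRightInverse
  refine ⟨((finz (H.evd l) h0 R).image fun s => σ (π s)).toFinset, ?_, fun s hs => ?_⟩
  · intro p hp q hq h
    obtain ⟨a, -, rfl⟩ := (Set.Finite.mem_toFinset _).1 hp
    obtain ⟨b, -, rfl⟩ := (Set.Finite.mem_toFinset _).1 hq
    have := (hπ _ _).2 h
    rw [hσ, hσ] at this
    simp only [this]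
  · obtain ⟨w, hw, h1⟩ := hR s
    have e1 : Pp (θ (s - w)) (θ s) := (H.per _ _).2 (by simpa using hw)
    obtain ⟨c, -, hc⟩ := id e1
    refine ⟨σ (π (s - w)), (Set.Finite.mem_toFinset _).2 ⟨s - w, ⟨h1, ?_⟩, rfl⟩,
      e1.symm.trans ((hπ _ _).1 (hσ _).symm)⟩
    rw [(H.ev_mem hl).2 _ _ c hc, hs, mul_zero]

variable {S : Finset ℂ}

lemma Emb.quo (H : Emb θ L) (hc : Cut θ l S) (hg : g ∈ T θ (d + 1)) (h : ∀ p ∈ S, g p = 0) :
    ∃ q ∈ T θ d, g = ev θ l * q := by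
  obtain ⟨q, q1, q2⟩ := dvd (H.evd l) hg.1 hc.simple (fun s hs => by
    obtain ⟨p, hp, t, -, ht⟩ := hc.all s hs
    rw [hg.2 _ _ t ht, h p hp, mul_zero]) hc.ne
  refine ⟨q, H.mem_of q1 fun w _ s₀ => (iso (H.evd l) hc.ne s₀).mono fun x hx t ht => ?_,
    funext q2⟩
  have a := hg.2 _ _ t ht
  rw [q2, q2, (H.ev_mem hc.hom).2 _ _ t ht] at a
  exact mul_left_cancel₀ (mul_ne_zero (H.t0 ht) hx) (by linear_combination a)

lemma Emb.fin (H : Emb θ L) (hc : Cut θ l S) (d : ℕ) : FiniteDimensional ℂ (T θ d) := by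
  induction d with
  | zero =>
    refine Submodule.finiteDimensional_of_le (S₂ := Submodule.span ℂ {fun _ => 1}) fun g hg => ?_
    exact Submodule.mem_span_singleton.2 ⟨g 0, funext fun s => by simp [H.const hg s]⟩
  | succ d ih =>
    let ρ : (ℂ → ℂ) →ₗ[ℂ] (S → ℂ) := LinearMap.funLeft ℂ ℂ Subtype.val
    rw [← Submodule.fg_iff_finiteDimensional]
    refine Submodule.fg_of_fg_map_of_fg_inf_ker ρ (IsNoetherian.noetherian _) ?_
    rw [Submodule.fg_iff_finiteDimensional]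
    refine Submodule.finiteDimensional_of_le
      (S₂ := (T θ d).map (LinearMap.mulLeft ℂ (ev θ l))) fun g hg => ?_
    obtain ⟨q, q1, q2⟩ := H.quo hc hg.1 fun p hp => congrFun (show ρ g = 0 from hg.2) ⟨p, hp⟩
    exact ⟨q, q1, q2.symm⟩

lemma Emb.interp (H : Emb θ L) (hc : Cut θ l S) (hd : S.card ≤ d) (g : ℂ → ℂ) :
    ∃ F : PR N, F.IsHomogeneous d ∧ ∀ p ∈ S, ev θ F p = g p := by
  classical
  have one : ∀ p ∈ S, ∃ F : PR N, F.IsHomogeneous d ∧ ev θ F p ≠ 0 ∧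
      ∀ q ∈ S, q ≠ p → ev θ F q = 0 := fun p hp => by
    choose! m m1 m2 m3 using fun q (hq : q ∈ S.erase p) => sep (H.ne p) (H.ne q)
      fun h => (Finset.mem_erase.1 hq).1 (hc.inj p hp q (Finset.mem_erase.1 hq).2 h).symm
    obtain ⟨i, hi⟩ := Function.ne_iff.1 (H.ne p)
    have hi' : θ p i ≠ 0 := hi
    have a := (IsHomogeneous.prod (S.erase p) m (fun _ => 1) m1).mul
      ((isHomogeneous_X ℂ i).pow (d - (S.erase p).card))
    rw [Finset.sum_const, smul_eq_mul, mul_one, one_mul,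
      Nat.add_sub_cancel' ((Finset.card_erase_le).trans hd)] at a
    refine ⟨_, a, ?_, fun q hq c => ?_⟩
    · simp only [ev, map_mul, map_prod, map_pow, eval_X]
      exact mul_ne_zero (Finset.prod_ne_zero_iff.2 m2) (pow_ne_zero _ hi')
    · simp only [ev, map_mul, map_prod]
      rw [Finset.prod_eq_zero (Finset.mem_erase.2 ⟨c, hq⟩) (m3 q (Finset.mem_erase.2 ⟨c, hq⟩)),
        zero_mul]
  choose! G G1 G2 G3 using one
  refine ⟨∑ p ∈ S, C (g p / ev θ (G p) p) * G p,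
    IsHomogeneous.sum _ _ _ fun p hp => (G1 p hp).C_mul _, fun q hq => ?_⟩
  simp only [ev, map_sum, map_mul, eval_C]
  rw [Finset.sum_eq_single_of_mem q hq fun p hp c => by
    rw [show eval (θ q) (G p) = 0 from G3 p hp q hq c.symm, mul_zero]]
  exact div_mul_cancel₀ _ (G2 q hq)

lemma Emb.step (H : Emb θ L) (hc : Cut θ l S) (e : ℕ) : ∀ g ∈ T θ (S.card + e),
    ∃ F : PR N, F.IsHomogeneous (S.card + e) ∧ ∃ h ∈ T θ S.card, g = ev θ F + ev θ l ^ e * h := by
  induction e with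
  | zero => exact fun g hg => ⟨0, isHomogeneous_zero _ _ _, g, hg, funext fun s => by simp [ev]⟩
  | succ e ih =>
    intro g hg
    obtain ⟨F, F1, F2⟩ := H.interp hc (d := S.card + (e + 1)) (Nat.le_add_right _ _) g
    obtain ⟨q, q1, q2⟩ := H.quo hc (d := S.card + e) (sub_mem hg (H.ev_mem F1))
      fun p hp => sub_eq_zero.2 (F2 p hp).symm
    obtain ⟨G, G1, h, h1, h2⟩ := ih q q1
    refine ⟨F + G * l, F1.add (G1.mul hc.hom), h, h1, funext fun s => ?_⟩
    have a := congrFun q2 s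
    have b := congrFun h2 s
    simp only [ev, Pi.sub_apply, Pi.mul_apply, Pi.add_apply, Pi.pow_apply, map_add,
      map_mul] at a b ⊢
    rw [b] at a
    linear_combination a

end Pool.Agent.MP_c69980_ag.J1E
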