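import Pool.Agent.MP_c69980_ag.J1E.B

/-!
Elliptic functions with poles in the lattice are ratios of forms.
-/

set_option autoImplicit false

noncomputable section

namespace Pool.Agent.MP_c69980_ag.J1E

open MvPolynomial Metric Filter Topology Set
open H60 H4 E1

variable {N : ℕ} {θ : ℂ → V N} {L : PeriodPair} {l₀ : PR N}

lemma Emb.lin (H : Emb θ L) :
    ∃ l₀ : PR N, l₀.IsHomogeneous 1 ∧ (∃ s, ev θ l₀ s ≠ 0) ∧ ev θ l₀ 0 = 0 := by
  obtain ⟨l, a, b, c⟩ := sep (H.ne (L.ω₁ / 2)) (H.ne 0)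
    fun h => L.ω₁_div_two_notMem_lattice (by simpa using (H.per _ _).1 h)
  exact ⟨l, a, ⟨_, b⟩, c⟩

lemma wron {f g : ℂ → ℂ} (hf : Differentiable ℂ f) (hg : Differentiable ℂ g) (h0 : ∃ s, f s ≠ 0)
    (f0 : f 0 = 0) (g0 : g 0 ≠ 0) : ∃ s, deriv f s * g s - f s * deriv g s ≠ 0 := by
  by_contra q
  have q' : ∀ s, deriv f s * g s - f s * deriv g s = 0 := fun s => by_contra fun c => q ⟨s, c⟩
  obtain ⟨r, r0, hr⟩ := Metric.eventually_nhds_iff_ball.1
    (hg.continuous.continuousAt.eventually_ne g0)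
  obtain ⟨x, h1, h2⟩ := ((iso hf h0 0).and
    (mem_nhdsWithin_of_mem_nhds (ball_mem_nhds (0 : ℂ) r0))).exists
  have := IsOpen.is_const_of_deriv_eq_zero (f := fun s => f s / g s) isOpen_ball
    (convex_ball (0 : ℂ) r).isPreconnected (hf.differentiableOn.div hg.differentiableOn hr)
    (fun s hs => by
      rw [deriv_fun_div (hf s) (hg s) (hr s hs), q', zero_div]
      rfl) h2 (mem_ball_self r0)
  rw [f0, zero_div] at this
  exact div_ne_zero h1 (hr x h2) this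

lemma Emb.cut (H : Emb θ L) (h1 : l₀.IsHomogeneous 1) (h2 : ∃ s, ev θ l₀ s ≠ 0)
    (h3 : ev θ l₀ 0 = 0) : ∃ (l : PR N) (S : Finset ℂ), Cut θ l S ∧ ev θ l 0 ≠ 0 := by
  obtain ⟨m, m1, m2⟩ := avoid ((cntz (H.evd l₀) h2).image θ) (by
    rintro _ ⟨s, -, rfl⟩
    exact H.ne s)
  have m3 : ∀ s, ev θ l₀ s = 0 → ev θ m s ≠ 0 := fun s hs => m2 _ ⟨s, hs, rfl⟩
  have d0 := H.evd l₀
  have d1 := H.evd m
  have dW : Differentiable ℂ fun s => deriv (ev θ l₀) s * ev θ m s - ev θ l₀ s * deriv (ev θ m) s :=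
    fun s => ((d0.analyticAt s).deriv.differentiableAt.mul (d1 s)).sub
      ((d0 s).mul (d1.analyticAt s).deriv.differentiableAt)
  obtain ⟨t, ht⟩ := ((((cntz dW (wron d0 d1 h2 h3 (m3 0 h3))).image
    fun s => ev θ l₀ s / ev θ m s).insert 0).dense_compl ℂ).nonempty
  have e : ev θ (l₀ - C t * m) = fun s => ev θ l₀ s - t * ev θ m s := funext fun s => by simp [ev]
  have hl : (l₀ - C t * m).IsHomogeneous 1 := h1.sub (m1.C_mul t)
  have n0 : ev θ (l₀ - C t * m) 0 ≠ 0 := by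
    rw [e]
    simp only [h3, zero_sub, neg_ne_zero]
    exact mul_ne_zero (fun q => ht (Or.inl q)) (m3 0 h3)
  obtain ⟨S, s1, s2⟩ := H.reps hl ⟨0, n0⟩
  refine ⟨_, S, ⟨hl, ⟨0, n0⟩, fun s hs q => ht (Or.inr ⟨s, ?_, ?_⟩), s1, s2⟩, n0⟩
  · rw [e, ((d0 s).hasDerivAt.fun_sub ((d1 s).hasDerivAt.const_mul t)).deriv] at q
    rw [e] at hs
    show _ - _ = (0 : ℂ)
    linear_combination ev θ m s * q - deriv (ev θ m) s * hs
  · rw [e] at hs
    have c : ev θ m s ≠ 0 := fun c => m3 s (by linear_combination hs + t * c) c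
    show _ / _ = t
    rw [div_eq_iff c]
    linear_combination hs

lemma poly_ne {c : ℕ} {g : Fin c → ℂ} (hg : ∃ i, g i ≠ 0) :
    ∀ᶠ x in 𝓝[≠] (0 : ℂ), ∑ j : Fin c, g j * x ^ (j : ℕ) ≠ 0 := by
  refine iso (by fun_prop) ?_ 0
  by_contra q
  obtain ⟨i, hi⟩ := hg
  have P0 : (∑ j : Fin c, Polynomial.monomial j (g j) : Polynomial ℂ) = 0 :=
    Polynomial.funext fun x => by
      rw [Polynomial.eval_finsetSum, Polynomial.eval_zero]
      exact by_contra fun c => q ⟨x, by simpa [Polynomial.eval_monomial] using c⟩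
  have := congrArg (fun p => Polynomial.coeff p i) P0
  exact hi (by
    simpa [Polynomial.finsetSum_coeff, Polynomial.coeff_monomial, Fin.val_inj] using this)

theorem Emb.rat (H : Emb θ L) {φ : ℂ → ℂ} (hp : ∀ s, ∀ w ∈ L.lattice, φ (s + w) = φ s)
    (ha : ∀ s₀ ∈ L.lattice, ∃ a : ℂ → ℂ, AnalyticAt ℂ a s₀ ∧
      ∀ᶠ x in 𝓝[≠] s₀, (x - s₀) ^ 3 * φ x = a x)
    (hb : ∀ s₀, s₀ ∉ L.lattice → AnalyticAt ℂ φ s₀) :
    ∃ (A B : PR N) (d : ℕ), A.IsHomogeneous d ∧ B.IsHomogeneous d ∧ (∃ s, ev θ A s ≠ 0) ∧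
      ∀ᶠ x in 𝓝[≠] (0 : ℂ), ev θ A x * φ x = ev θ B x := by
  obtain ⟨l₀, h1, h2, h3⟩ := H.lin
  obtain ⟨l, S, hc, n0⟩ := H.cut h1 h2 h3
  have d0 := H.evd l₀
  obtain ⟨γ, γ1, γ2⟩ := rem (h := fun x => φ x * ev θ l₀ x ^ 3) fun s₀ => by
    by_cases c : s₀ ∈ L.lattice
    · obtain ⟨a, a1, a2⟩ := ha s₀ c
      obtain ⟨t, -, ht⟩ := (H.per s₀ 0).2 (by simpa using c)
      have z0 : ev θ l₀ s₀ = 0 := by rw [(H.ev_mem h1).2 _ _ t ht, h3, mul_zero]
      refine ⟨fun x => a x * dslope (ev θ l₀) s₀ x ^ 3,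
        a1.mul ((an_dslope (d0.analyticAt s₀)).pow 3), a2.mono fun x hx => ?_⟩
      simp only
      rw [← hx, eq_dslope z0 x]
      ring
    · exact ⟨_, (hb s₀ c).mul ((d0.analyticAt s₀).pow 3), EventuallyEq.rfl⟩
  have γ3 : γ ∈ T θ 3 := H.mem_of γ1 fun w hw s₀ => by
    have tw : Tendsto (fun x => x + w) (𝓝[≠] s₀) (𝓝[≠] (s₀ + w)) :=
      tendsto_nhdsWithin_iff.2 ⟨((continuous_add_const w).tendsto s₀).mono_left
        nhdsWithin_le_nhds, eventually_mem_nhdsWithin.mono fun x hx q => hx (add_right_cancel q)⟩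
    filter_upwards [γ2 s₀, tw.eventually (γ2 (s₀ + w))] with x a b t ht
    rw [a, b, hp x w hw, (H.ev_mem h1).2 _ _ t ht]
    ring
  have := H.fin hc S.card
  obtain ⟨c, ec⟩ : ∃ c, Module.finrank ℂ (T θ S.card) = c := ⟨_, rfl⟩
  let a : Fin (c + 1) → PR N := fun j => l ^ S.card * (l₀ ^ (j : ℕ) * l ^ (c - j))
  have a1 : ∀ j, (a j).IsHomogeneous (S.card + c) := fun j => by
    have := (hc.hom.pow S.card).mul ((h1.pow j).mul (hc.hom.pow (c - j)))
    rwa [one_mul, one_mul, one_mul, Nat.add_sub_cancel' (Nat.lt_succ_iff.1 j.2)] at this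
  choose F F1 h h4 h5 using fun j => H.step hc (c + 3) _
    (Nat.add_assoc _ _ _ ▸ T_mul (H.ev_mem (a1 j)) γ3)
  obtain ⟨g, g1, g2⟩ := Fintype.not_linearIndependent_iff.1
    fun q : LinearIndependent ℂ (fun j => (⟨h j, h4 j⟩ : T θ S.card)) => by
      have := q.fintype_card_le_finrank
      rw [Fintype.card_fin, ec] at this
      exact Nat.not_succ_le_self c this
  have g3 : ∀ x, ∑ j, g j * h j x = 0 := fun x => by
    have := congrFun (congrArg Subtype.val g1) x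
    simpa [Finset.sum_apply] using this
  refine ⟨(∑ j, C (g j) * a j) * l₀ ^ 3, ∑ j, C (g j) * F j, S.card + (c + 3),
    Nat.add_assoc _ _ _ ▸ (IsHomogeneous.sum _ _ _ fun j _ => (a1 j).C_mul _).mul (h1.pow 3),
    IsHomogeneous.sum _ _ _ fun j _ => (F1 j).C_mul _, ?_, (γ2 0).mono fun x hx => ?_⟩
  · have cl := (H.evd l).continuous.continuousAt (x := 0)
    have e1 : ∀ᶠ x in 𝓝[≠] (0 : ℂ), ev θ l x ≠ 0 :=
      mem_nhdsWithin_of_mem_nhds (cl.eventually_ne n0)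
    have e2 := iso d0 h2 0
    have tq : Tendsto (fun x => ev θ l₀ x / ev θ l x) (𝓝[≠] 0) (𝓝[≠] 0) := by
      refine tendsto_nhdsWithin_iff.2 ⟨?_, (e1.and e2).mono fun x hx => div_ne_zero hx.2 hx.1⟩
      have := (d0.continuous.continuousAt (x := 0)).div cl n0
      rw [ContinuousAt, Pi.div_apply, h3, zero_div] at this
      exact this.mono_left nhdsWithin_le_nhds
    obtain ⟨x, ⟨x1, x2⟩, x3⟩ := ((e1.and e2).and (tq.eventually (poly_ne g2))).exists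
    refine ⟨x, ?_⟩
    have : ev θ ((∑ j, C (g j) * a j) * l₀ ^ 3) x = ev θ l x ^ S.card * ev θ l x ^ c *
        (∑ j, g j * (ev θ l₀ x / ev θ l x) ^ (j : ℕ)) * ev θ l₀ x ^ 3 := by
      simp only [ev, map_mul, map_sum, map_pow, eval_C, a, Finset.mul_sum] at x1 ⊢
      refine congrArg (· * _) (Finset.sum_congr rfl fun j _ => ?_)
      rw [pow_sub₀ _ x1 (Nat.lt_succ_iff.1 j.2), div_pow, div_eq_mul_inv]
      ring
    rw [this]
    exact mul_ne_zero (mul_ne_zero (mul_ne_zero (pow_ne_zero _ x1) (pow_ne_zero _ x1)) x3)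
      (pow_ne_zero _ x2)
  · have e : ∀ j, ev θ (a j) x * γ x = ev θ (F j) x + ev θ l x ^ (c + 3) * h j x := fun j =>
      congrFun (h5 j) x
    have e2 : ∑ j, g j * ev θ (F j) x = ∑ j, g j * ev θ (a j) x * γ x := by
      rw [← add_zero (∑ j, g j * ev θ (F j) x), ← mul_zero (ev θ l x ^ (c + 3)), ← g3 x,
        Finset.mul_sum, ← Finset.sum_add_distrib]
      exact Finset.sum_congr rfl fun j _ => by linear_combination (-g j) * e j
    rw [← Finset.sum_mul, hx] at e2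
    simp only [ev, map_mul, map_sum, map_pow, eval_C] at e2 ⊢
    linear_combination -e2

end Pool.Agent.MP_c69980_ag.J1E
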